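import Pool.Agent.H14R3.KK.Defs

/-! Task HEINT of project KK: Hermite polynomials have mean zero. -/

set_option autoImplicit false
open MeasureTheory ProbabilityTheory Filter Topology

namespace KK14

namespace HEINTx

theorem He_zero (x : ℝ) : He 0 x = 1 := by rw [He]
theorem He_one (x : ℝ) : He 1 x = x := by rw [He]
theorem He_succ (k : ℕ) (x : ℝ) : He (k + 2) x = x * He (k + 1) x - (k + 1) * He k x := by rw [He]

theorem pow_int (n : ℕ) : Integrable (fun x : ℝ => x ^ n) (gaussianReal 0 1) := by
  by_cases hn : n = 0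
  · subst hn
    simp
  · have h := (memLp_id_gaussianReal' (μ := 0) (v := 1) (n : ENNReal)
      (ENNReal.natCast_ne_top n)).integrable_norm_pow hn
    refine h.mono (by fun_prop) (Filter.Eventually.of_forall fun x => ?_)
    simp

theorem mul_int (k : ℕ) : ∀ n : ℕ, Integrable (fun x : ℝ => x ^ n * He k x) (gaussianReal 0 1) := by
  induction k using Nat.strong_induction_on with
  | _ k ih =>
    intro n
    match k, ih with
    | 0, _ => simpa [He_zero] using pow_int n
    | 1, _ =>
      have e : (fun x : ℝ => x ^ n * He 1 x) = fun x => x ^ (n + 1) := by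
        funext x; rw [He_one, pow_succ]
      rw [e]
      exact pow_int (n + 1)
    | k + 2, ih =>
      have h1 := ih (k + 1) (by omega) (n + 1)
      have h2 := (ih k (by omega) n).const_mul ((k : ℝ) + 1)
      refine (h1.sub h2).congr (Filter.Eventually.of_forall fun x => ?_)
      simp only [Pi.sub_apply]
      rw [He_succ, pow_succ]
      ring

theorem he_int (k : ℕ) : Integrable (He k) (gaussianReal 0 1) := by
  simpa using mul_int k 0

theorem deriv_He (k : ℕ) : ∀ x : ℝ, HasDerivAt (He 0) 0 x ∧
    HasDerivAt (He (k + 1)) (((k : ℝ) + 1) * He k x) x := by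
  induction k using Nat.strong_induction_on with
  | _ k ih =>
    intro x
    have h0 : HasDerivAt (He 0) 0 x := by
      have e : He 0 = fun _ => (1 : ℝ) := by funext y; exact He_zero y
      rw [e]
      exact hasDerivAt_const x 1
    refine ⟨h0, ?_⟩
    match k, ih with
    | 0, _ =>
      have e : He (0 + 1) = fun y => y := by funext y; exact He_one y
      rw [e, He_zero]
      simpa using hasDerivAt_id' x
    | 1, ih =>
      have e : He (1 + 1) = fun y => y * He 1 y - (((0 : ℕ) : ℝ) + 1) * He 0 y := by
        funext y; exact He_succ 0 y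
      rw [e]
      have h1 := ((hasDerivAt_id' x).mul (ih 0 (by omega) x).2).sub (h0.const_mul (((0 : ℕ) : ℝ) + 1))
      refine h1.congr_deriv ?_
      have h4 : He (0 + 1) x = x := He_one x
      rw [h4, He_zero]
      push_cast
      ring
    | k + 2, ih =>
      have e : He (k + 2 + 1) = fun y => y * He (k + 2) y - (((k + 1 : ℕ) : ℝ) + 1) * He (k + 1) y := by
        funext y; exact He_succ (k + 1) y
      rw [e]
      have h1 := ((hasDerivAt_id' x).mul (ih (k + 1) (by omega) x).2).sub
        ((ih k (by omega) x).2.const_mul (((k + 1 : ℕ) : ℝ) + 1))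
      refine h1.congr_deriv ?_
      have h3 := He_succ k x
      have h4 : He (k + 1 + 1) x = He (k + 2) x := rfl
      rw [h4, h3]
      push_cast
      ring

theorem deriv_pdf (x : ℝ) : HasDerivAt (gaussianPDFReal 0 1) (-x * gaussianPDFReal 0 1 x) x := by
  have e : gaussianPDFReal 0 1 = fun x => (√(2 * Real.pi * 1))⁻¹ * Real.exp (-(x - 0) ^ 2 / (2 * 1)) := by
    funext x
    simp [gaussianPDFReal]
  rw [e]
  have h1 : HasDerivAt (fun x : ℝ => -(x - 0) ^ 2 / (2 * 1)) (-x) x := by
    have := ((((hasDerivAt_id' x).sub_const (0 : ℝ)).pow 2).neg).div_const (2 * 1 : ℝ)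
    refine this.congr_deriv ?_
    push_cast
    ring
  have h2 := (h1.exp).const_mul ((√(2 * Real.pi * 1))⁻¹)
  refine h2.congr_deriv ?_
  ring

theorem vol_int {f : ℝ → ℝ} (hf : Integrable f (gaussianReal 0 1)) :
    Integrable (fun x => gaussianPDFReal 0 1 x * f x) := by
  rw [gaussianReal_of_var_ne_zero 0 one_ne_zero,
    integrable_withDensity_iff_integrable_smul' (measurable_gaussianPDF 0 1)
      (Filter.Eventually.of_forall fun x => by
        rw [gaussianPDF]; exact ENNReal.ofReal_lt_top)] at hf
  simpa [toReal_gaussianPDF] using hf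

theorem mean (k : ℕ) : ∫ x, He (k + 1) x ∂(gaussianReal 0 1) = 0 := by
  rw [integral_gaussianReal_eq_integral_smul one_ne_zero]
  have hd : ∀ x : ℝ, HasDerivAt (fun x => gaussianPDFReal 0 1 x * He k x)
      (-(gaussianPDFReal 0 1 x * He (k + 1) x)) x := by
    intro x
    cases k with
    | zero =>
      have h := (deriv_pdf x).mul (deriv_He 0 x).1
      refine h.congr_deriv ?_
      have h4 : He (0 + 1) x = x := He_one x
      rw [h4, He_zero]
      ring
    | succ k =>
      have h := (deriv_pdf x).mul (deriv_He k x).2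
      refine h.congr_deriv ?_
      have h4 : He (k + 1 + 1) x = He (k + 2) x := rfl
      rw [h4, He_succ]
      ring
  have h0 := integral_eq_zero_of_hasDerivAt_of_integrable hd (vol_int (he_int (k + 1))).neg
    (vol_int (he_int k))
  rw [integral_neg, neg_eq_zero] at h0
  simpa [smul_eq_mul] using h0

end HEINTx

open HEINTx in
theorem HEINT (k : ℕ) : Integrable (He k) (gaussianReal 0 1) ∧
    ∫ x, He k x ∂(gaussianReal 0 1) = if k = 0 then 1 else 0 := by
  refine ⟨he_int k, ?_⟩
  cases k with
  | zero =>
    have e : ∀ x, He 0 x = 1 := He_zero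
    simp [e]
  | succ k =>
    rw [mean k, if_neg (Nat.succ_ne_zero k)]

end KK14
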